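import Pool.Agent.H104R3.EG.Stmts

set_option autoImplicit false

/-! Project EG, task `TaskPInc`. -/

namespace Pool.Agent.H823R3.EG

open Pool.Agent.H104R3.EG

theorem real_mono {G : Type} [Group G] {n n' : ℕ} {P P' : (G → G) → Prop} (hn : n ≤ n')
    (h : ∀ α, P α → P' α) : Real G n P → Real G n' P' := by
  rintro ⟨S, h1, h2⟩
  exact ⟨S, h1.trans hn, fun α hα => h α (h2 α hα)⟩

theorem card_image {G : Type} [Group G] [Finite G] (N K M : Subgroup G)
    [(K.subgroupOf M).Normal] (hNM : N ≤ M) (hKN : K ⊓ N = ⊥) :
    Nat.card ((N.subgroupOf M).map (QuotientGroup.mk' (K.subgroupOf M))) = Nat.card N := by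
  have h1 : Nat.card (N.subgroupOf M) = Nat.card N :=
    Nat.card_congr (Subgroup.subgroupOfEquivOfLe hNM).toEquiv
  rw [← h1]
  symm
  refine Nat.card_congr (Equiv.ofBijective
    (fun x : N.subgroupOf M => (⟨QuotientGroup.mk' (K.subgroupOf M) x,
      Subgroup.mem_map_of_mem _ x.2⟩ :
        (N.subgroupOf M).map (QuotientGroup.mk' (K.subgroupOf M)))) ⟨?_, ?_⟩)
  · intro x y hxy
    have h2 : QuotientGroup.mk' (K.subgroupOf M) (x : M) = QuotientGroup.mk' (K.subgroupOf M) y :=
      congrArg Subtype.val hxy
    rw [QuotientGroup.mk'_apply, QuotientGroup.mk'_apply, QuotientGroup.eq] at h2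
    have h3 : (((x : M)⁻¹ * (y : M) : M) : G) ∈ K ⊓ N := by
      refine ⟨h2, ?_⟩
      have hx : ((x : M) : G) ∈ N := x.2
      have hy : ((y : M) : G) ∈ N := y.2
      exact N.mul_mem (N.inv_mem hx) hy
    rw [hKN, Subgroup.mem_bot] at h3
    apply Subtype.ext
    apply Subtype.ext
    have h4 : ((x : M) : G)⁻¹ * ((y : M) : G) = 1 := h3
    exact inv_mul_eq_one.mp h4
  · rintro ⟨z, hz⟩
    obtain ⟨x, hx, rfl⟩ := hz
    exact ⟨⟨x, hx⟩, rfl⟩

theorem taskPInc : TaskPInc := by
  intro comb gen inv sect pg p hp
  have key : ∀ n : ℕ, ∀ (P : Type) [Group P] [Finite P], Nat.card P = n → IsPGroup p P →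
      ∀ N : Subgroup P, N ≤ Subgroup.center P → Nat.card N = p → Inc P N (20 * Nat.card P) := by
    intro n
    induction n using Nat.strong_induction_on with
    | _ n ih =>
      intro P _ _ hn hP N hNc hNp
      have hN : N.Normal := by
        constructor
        intro x hx g
        have h1 := Subgroup.mem_center_iff.mp (hNc hx) g
        rw [h1, mul_inv_cancel_right]
        exact hx
      have hpos : 0 < Nat.card P := Nat.card_pos
      rcases pg p hp P hP N hNc hNp with ⟨K, hKp, hKN, hidx⟩ | ⟨a, b, c, habc⟩
      · set M : Subgroup P := Subgroup.normalizer (K : Set P) with hM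
        have hKM : K ≤ M := Subgroup.le_normalizer
        have hNM : N ≤ M := by
          intro x hx
          have hx' := hNc hx
          rw [hM, Subgroup.mem_normalizer_iff]
          intro y
          have h1 := Subgroup.mem_center_iff.mp hx' y
          rw [← h1, mul_inv_cancel_right]
        have hnorm : (K.subgroupOf M).Normal := Subgroup.normal_in_normalizer
        -- the quotient
        have hcard1 : Nat.card (K.subgroupOf M) = p := by
          rw [← hKp]
          exact Nat.card_congr (Subgroup.subgroupOfEquivOfLe hKM).toEquiv
        have hcard2 : Nat.card M = Nat.card (M ⧸ K.subgroupOf M) * p := by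
          rw [← hcard1]
          exact Subgroup.card_eq_card_quotient_mul_card_subgroup _
        have hcard3 : M.index * Nat.card (M ⧸ K.subgroupOf M) * p = Nat.card P := by
          rw [mul_assoc, ← hcard2, mul_comm, Subgroup.card_mul_index]
        have hMpos : 0 < Nat.card (M ⧸ K.subgroupOf M) := Nat.card_pos
        have hidxpos : 0 < M.index := Nat.pos_of_ne_zero Subgroup.index_ne_zero_of_finite
        have hlt : Nat.card (M ⧸ K.subgroupOf M) < n := by
          rw [← hn, ← hcard3]
          have h2 := hp.two_le
          nlinarith [Nat.mul_le_mul hidxpos (le_refl (Nat.card (M ⧸ K.subgroupOf M)))]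
        have hPM : IsPGroup p (M ⧸ K.subgroupOf M) := (hP.to_subgroup M).to_quotient _
        have hinc := ih _ hlt (M ⧸ K.subgroupOf M) rfl hPM
          ((N.subgroupOf M).map (QuotientGroup.mk' (K.subgroupOf M))) (by
            rintro _ ⟨x, hx, rfl⟩
            rw [Subgroup.mem_center_iff]
            intro y
            obtain ⟨y, rfl⟩ := QuotientGroup.mk'_surjective _ y
            rw [← map_mul, ← map_mul]
            congr 1
            apply Subtype.ext
            have hx' : ((x : M) : P) ∈ N := hx
            exact Subgroup.mem_center_iff.mp (hNc hx') y)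
          (by rw [card_image N K M hNM hKN, hNp])
        have hsect := sect P N K M _ hKM hKN hinc
        have hbound : 3 * Nat.card P + M.index * (20 * Nat.card (M ⧸ K.subgroupOf M)) ≤
            13 * Nat.card P := by
          have h2 := hp.two_le
          have h3 : M.index * Nat.card (M ⧸ K.subgroupOf M) * 2 ≤ Nat.card P := by
            rw [← hcard3]
            exact Nat.mul_le_mul_left _ h2
          nlinarith
        have hs' : Real P (13 * Nat.card P) (fun α => ModN N α → ∀ x ∈ M, Comm α x) :=
          real_mono hbound (fun _ h => h) hsect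
        rcases (Nat.dvd_prime hp).mp hidx with h1 | h1
        · have hMtop : M = ⊤ := Subgroup.index_eq_one.mp h1
          refine real_mono (by omega) (fun α h hα x => h hα x ?_) hs'
          rw [hMtop]; trivial
        · obtain ⟨s, hs⟩ : ∃ s, s ∉ M := by
            by_contra hcon
            push Not at hcon
            have : M = ⊤ := (Subgroup.eq_top_iff' M).mpr hcon
            rw [this, Subgroup.index_top] at h1
            exact hp.one_lt.ne h1
          refine real_mono (by omega) ?_ (comb P _ _ _ _ hs' (gen P s))
          rintro α ⟨h2, h3⟩ hα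
          obtain ⟨I, hI⟩ := inv P α
          have hMI : M ≤ I := fun x hx => (hI x).mpr (h2 hα x hx)
          have hsI : s ∈ I := (hI s).mpr h3
          have hmul := Subgroup.relIndex_mul_index hMI
          have hIdvd : I.index ∣ p := by
            rw [← h1, ← hmul]
            exact Dvd.intro_left _ rfl
          rcases (Nat.dvd_prime hp).mp hIdvd with h4 | h4
          · have hItop : I = ⊤ := Subgroup.index_eq_one.mp h4
            intro x
            rw [← hI, hItop]; trivial
          · exfalso
            rw [h1, h4] at hmul
            have h5 : M.relIndex I = 1 := by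
              have := hp.pos
              nlinarith
            rw [Subgroup.relIndex_eq_one] at h5
            exact hs (h5 hsI)
      · have h1 := comb P _ _ _ _ (comb P _ _ _ _ (gen P a) (gen P b)) (gen P c)
        refine real_mono (by omega) ?_ h1
        rintro α ⟨⟨ha, hb⟩, hc⟩ _
        obtain ⟨I, hI⟩ := inv P α
        have hItop : (⊤ : Subgroup P) ≤ I := by
          rw [← habc, Subgroup.closure_le]
          intro x hx
          rcases hx with rfl | rfl | rfl
          · exact (hI _).mpr ha
          · exact (hI _).mpr hb
          · exact (hI _).mpr hc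
        intro x
        exact (hI x).mp (hItop trivial)
  intro P _ _ hP N hNc hNp
  exact key _ P rfl hP N hNc hNp

end Pool.Agent.H823R3.EG
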